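import Mathlib
import Pool.Agent.VM.StmtsW

set_option autoImplicit false

namespace Pool.Agent.VM.H17

open Pool.Agent.Helper69_Weyl (ee norm_ee norm_ee_sub_le abel_bound)

theorem sum_lo (lo m : ℕ) (hlo : 1 ≤ lo) (f : ℕ → ℂ) :
    ∑ n ∈ Finset.Icc 1 m, (if lo ≤ n then f n else 0) = ∑ n ∈ Finset.Icc lo m, f n := by
  rw [← Finset.sum_filter]
  refine Finset.sum_congr ?_ fun _ _ => rfl
  ext n
  simp only [Finset.mem_filter, Finset.mem_Icc]
  omega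

/-- ABL: Abel summation -/
theorem abl : AblStmt := by
  intro k K lo hi c τ hK hlo hlohi hhi hτ
  obtain ⟨h, hh, hmax⟩ := Finset.exists_max_image (Finset.Icc lo hi)
    (fun m => ‖∑ n ∈ Finset.Icc lo m, c n‖) ⟨lo, Finset.mem_Icc.2 ⟨le_rfl, hlohi⟩⟩
  rw [Finset.mem_Icc] at hh
  refine ⟨h, hh.1, hh.2, ?_⟩
  set w : ℕ → ℂ := fun m => ee (∑ j, τ j * (m : ℝ) ^ ((j : ℕ) + 1)) with hw
  set B : ℝ := ‖∑ m ∈ Finset.Icc lo h, c m‖ with hB
  have hB0 : 0 ≤ B := norm_nonneg _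
  have hpart : ∀ m ≤ hi, ‖∑ n ∈ Finset.Icc 1 m, (if lo ≤ n then c n else 0)‖ ≤ B := by
    intro m hm
    rw [sum_lo lo m hlo c]
    rcases Nat.lt_or_ge m lo with h1 | h1
    · rw [Finset.Icc_eq_empty (by omega), Finset.sum_empty, norm_zero]
      exact hB0
    · exact hmax m (Finset.mem_Icc.2 ⟨h1, hm⟩)
  have hKpos : (0 : ℝ) < (K : ℝ) := by exact_mod_cast hK
  have hvar : ‖w hi‖ + ∑ m ∈ Finset.Ico 1 hi, ‖w (m + 1) - w m‖ ≤ 1 + 7 * (k : ℝ) := by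
    have h1 : ‖w hi‖ = 1 := norm_ee _
    have h2 : ∀ m ∈ Finset.Ico 1 hi, ‖w (m + 1) - w m‖ ≤
        2 * Real.pi * ∑ j : Fin k, |τ j| * (((m + 1 : ℕ) : ℝ) ^ ((j : ℕ) + 1) -
          (m : ℝ) ^ ((j : ℕ) + 1)) := by
      intro m _
      refine (norm_ee_sub_le _ _).trans ?_
      refine mul_le_mul_of_nonneg_left ?_ (by positivity)
      rw [← Finset.sum_sub_distrib]
      refine (Finset.abs_sum_le_sum_abs _ _).trans (Finset.sum_le_sum fun j _ => ?_)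
      rw [← mul_sub, abs_mul]
      refine mul_le_mul_of_nonneg_left (le_of_eq ?_) (abs_nonneg _)
      apply abs_of_nonneg
      rw [sub_nonneg]
      exact pow_le_pow_left₀ (by positivity) (by push_cast; linarith) _
    have h3 : ∑ m ∈ Finset.Ico 1 hi, ‖w (m + 1) - w m‖ ≤ 2 * Real.pi * (k : ℝ) := by
      refine (Finset.sum_le_sum h2).trans ?_
      rw [← Finset.mul_sum, Finset.sum_comm]
      refine mul_le_mul_of_nonneg_left ?_ (by positivity)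
      calc ∑ j : Fin k, ∑ m ∈ Finset.Ico 1 hi, |τ j| * (((m + 1 : ℕ) : ℝ) ^ ((j : ℕ) + 1) -
            (m : ℝ) ^ ((j : ℕ) + 1)) ≤ ∑ _j : Fin k, (1 : ℝ) := by
            refine Finset.sum_le_sum fun j _ => ?_
            rw [← Finset.mul_sum]
            have h4 : ∑ m ∈ Finset.Ico 1 hi, (((m + 1 : ℕ) : ℝ) ^ ((j : ℕ) + 1) -
                (m : ℝ) ^ ((j : ℕ) + 1)) ≤ (K : ℝ) ^ ((j : ℕ) + 1) := by
              rw [Finset.sum_Ico_sub (fun m : ℕ => (m : ℝ) ^ ((j : ℕ) + 1)) (by omega)]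
              have h5 : (hi : ℝ) ^ ((j : ℕ) + 1) ≤ (K : ℝ) ^ ((j : ℕ) + 1) :=
                pow_le_pow_left₀ (by positivity) (by exact_mod_cast hhi) _
              have h6 : (0 : ℝ) ≤ ((1 : ℕ) : ℝ) ^ ((j : ℕ) + 1) := by positivity
              linarith
            calc |τ j| * ∑ m ∈ Finset.Ico 1 hi, (((m + 1 : ℕ) : ℝ) ^ ((j : ℕ) + 1) -
                (m : ℝ) ^ ((j : ℕ) + 1)) ≤ |τ j| * (K : ℝ) ^ ((j : ℕ) + 1) :=
                  mul_le_mul_of_nonneg_left h4 (abs_nonneg _)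
              _ ≤ 1 / (K : ℝ) ^ ((j : ℕ) + 1) * (K : ℝ) ^ ((j : ℕ) + 1) :=
                  mul_le_mul_of_nonneg_right (hτ j) (by positivity)
              _ = 1 := by field_simp
        _ = (k : ℝ) := by simp
    have h4 : 2 * Real.pi * (k : ℝ) ≤ 7 * (k : ℝ) := by
      have := Real.pi_lt_d2
      have hk0 : (0 : ℝ) ≤ (k : ℝ) := by positivity
      nlinarith
    linarith
  have hfin := abel_bound (fun n => if lo ≤ n then c n else 0) w hi B (1 + 7 * (k : ℝ)) hpart hvar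
  have e1 : ∑ n ∈ Finset.Icc 1 hi, (if lo ≤ n then c n else 0) * w n =
      ∑ m ∈ Finset.Icc lo hi, c m * w m := by
    rw [← sum_lo lo hi hlo (fun m => c m * w m)]
    refine Finset.sum_congr rfl fun n _ => ?_
    split_ifs
    · rfl
    · rw [zero_mul]
  rw [← e1]
  calc ‖∑ n ∈ Finset.Icc 1 hi, (if lo ≤ n then c n else 0) * w n‖ ≤ B * (1 + 7 * (k : ℝ)) := hfin
    _ = (1 + 7 * (k : ℝ)) * B := mul_comm _ _

end Pool.Agent.VM.H17
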