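import Mathlib
import Pool.Agent.VM.StmtsW

set_option autoImplicit false

namespace Pool.Agent.VM.H17

open Pool.Agent.Helper69_Weyl (ee)

theorem sum_Icc_int (f : ℤ → ℂ) (M : ℕ) :
    ∑ n ∈ Finset.Icc (1 : ℤ) (M : ℤ), f n = ∑ i ∈ Finset.range M, f ((i : ℤ) + 1) := by
  symm
  refine Finset.sum_nbij' (fun i => (i : ℤ) + 1) (fun n => (n - 1).toNat) ?_ ?_ ?_ ?_ ?_
  · intro i hi
    rw [Finset.mem_range] at hi
    rw [Finset.mem_Icc]
    omega
  · intro n hn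
    rw [Finset.mem_Icc] at hn
    rw [Finset.mem_range]
    omega
  · intro i hi
    simp
  · intro n hn
    rw [Finset.mem_Icc] at hn
    show (((n - 1).toNat : ℕ) : ℤ) + 1 = n
    omega
  · intro i hi
    rfl

theorem block (k : ℕ) (B : ℝ) (q : ℕ) (t : ℝ)
    (h : ∀ (X : ℕ) (P : Polynomial ℝ), P.natDegree ≤ k → P.coeff k = t → X ≤ q →
      ‖∑ n ∈ Finset.Icc (1 : ℤ) (X : ℤ), ee (P.eval (n : ℝ))‖ ≤ B)
    (P : Polynomial ℝ) (hP : P.natDegree ≤ k) (hPt : P.coeff k = t) (y X : ℕ) (hX : X ≤ q) :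
    ‖∑ i ∈ Finset.range X, ee (P.eval ((((y + i : ℕ) : ℤ) + 1 : ℤ) : ℝ))‖ ≤ B := by
  have h1 := h X (Polynomial.taylor (y : ℝ) P) (by rw [Polynomial.natDegree_taylor]; exact hP)
    (by
      rw [← hPt]
      rcases Nat.lt_or_ge P.natDegree k with h2 | h2
      · rw [Polynomial.coeff_eq_zero_of_natDegree_lt h2,
          Polynomial.coeff_eq_zero_of_natDegree_lt (by rw [Polynomial.natDegree_taylor]; exact h2)]
      · have h3 : P.natDegree = k := le_antisymm hP h2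
        rw [← h3, Polynomial.coeff_taylor_natDegree]
        rfl) hX
  rw [sum_Icc_int] at h1
  refine le_trans (le_of_eq ?_) h1
  congr 1
  refine Finset.sum_congr rfl fun i _ => ?_
  congr 1
  rw [Polynomial.taylor_eval]
  congr 1
  push_cast
  ring

theorem blocks (k : ℕ) (B : ℝ) (q : ℕ) (t : ℝ)
    (h : ∀ (X : ℕ) (P : Polynomial ℝ), P.natDegree ≤ k → P.coeff k = t → X ≤ q →
      ‖∑ n ∈ Finset.Icc (1 : ℤ) (X : ℤ), ee (P.eval (n : ℝ))‖ ≤ B)
    (P : Polynomial ℝ) (hP : P.natDegree ≤ k) (hPt : P.coeff k = t) (j X : ℕ) (hX : X ≤ q) :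
    ‖∑ i ∈ Finset.range (j * q + X), ee (P.eval ((((i : ℕ) : ℤ) + 1 : ℤ) : ℝ))‖ ≤ (j + 1) * B := by
  induction j generalizing X with
  | zero =>
    have := block k B q t h P hP hPt 0 X hX
    simpa using this
  | succ j ih =>
    have e : (j + 1) * q + X = (j * q + q) + X := by ring
    rw [e, Finset.sum_range_add]
    refine (norm_add_le _ _).trans ?_
    have h1 := ih q le_rfl
    have h2 := block k B q t h P hP hPt (j * q + q) X hX
    push_cast at h1 h2 ⊢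
    linarith

/-- FNL: the final theorem -/
theorem fnl (k : ℕ) (hk : 3 ≤ k) (blc : BlcStmt k) : FnlStmt k := by
  intro ε hε
  obtain ⟨C, hC, h⟩ := blc ε hε
  refine ⟨2 * C, by positivity, ?_⟩
  intro N q a P hq hqN hg hP ht
  set σ : ℝ := 3 / (2 * (k : ℝ) * ((k : ℝ) + 1)) with hσ
  have hq0 : (0 : ℝ) < (q : ℝ) := by exact_mod_cast hq
  have hN0 : (0 : ℝ) < (N : ℝ) := by exact_mod_cast (by omega : 0 < N)
  have hqN' : (q : ℝ) ≤ (N : ℝ) := by exact_mod_cast hqN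
  have h1 := blocks k (C * (q : ℝ) ^ (1 - σ + ε)) q (P.coeff k)
    (fun X P' hP' hPt hX => h q X a P' hq hg hP' (by rw [hPt]; exact ht) hX)
    P hP rfl (N / q) (N % q) (Nat.mod_lt N (by omega)).le
  rw [Nat.div_add_mod' N q] at h1
  rw [sum_Icc_int]
  refine h1.trans ?_
  have h2 : (((N / q : ℕ) : ℝ) + 1) ≤ 2 * ((N : ℝ) / (q : ℝ)) := by
    have h3 : ((N / q : ℕ) : ℝ) ≤ (N : ℝ) / (q : ℝ) := Nat.cast_div_le
    have h4 : (1 : ℝ) ≤ (N : ℝ) / (q : ℝ) := by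
      rw [le_div_iff₀ hq0]; linarith
    linarith
  have e1 : (q : ℝ) ^ (1 - σ + ε) = (q : ℝ) * (q : ℝ) ^ ε * (1 / (q : ℝ)) ^ σ := by
    rw [one_div, Real.inv_rpow hq0.le, ← Real.rpow_neg hq0.le]
    nth_rewrite 2 [← Real.rpow_one (q : ℝ)]
    rw [← Real.rpow_add hq0, ← Real.rpow_add hq0]
    congr 1
    ring
  have h5 : (q : ℝ) ^ ε ≤ (N : ℝ) ^ ε := Real.rpow_le_rpow hq0.le hqN' hε.le
  have h6 : (0 : ℝ) ≤ (1 / (q : ℝ)) ^ σ := by positivity
  calc (((N / q : ℕ) : ℝ) + 1) * (C * (q : ℝ) ^ (1 - σ + ε))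
      ≤ 2 * ((N : ℝ) / (q : ℝ)) * (C * (q : ℝ) ^ (1 - σ + ε)) :=
        mul_le_mul_of_nonneg_right h2 (by positivity)
    _ = 2 * C * (N : ℝ) * ((q : ℝ) ^ ε * (1 / (q : ℝ)) ^ σ) := by
        rw [e1]
        field_simp
    _ ≤ 2 * C * (N : ℝ) * ((N : ℝ) ^ ε * (1 / (q : ℝ)) ^ σ) := by
        refine mul_le_mul_of_nonneg_left ?_ (by positivity)
        exact mul_le_mul_of_nonneg_right h5 h6
    _ = 2 * C * (N : ℝ) ^ (1 + ε) * (1 / (q : ℝ)) ^ σ := by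
        rw [Real.rpow_add hN0, Real.rpow_one]
        ring

end Pool.Agent.VM.H17
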