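import Mathlib
import Pool.Agent.Helper7_VM.Stmts
import Pool.Agent.Helper17_VM.Fnl

set_option autoImplicit false

namespace Pool.Agent.VM.H17

open Pool.Agent.Helper69_Weyl (ee)

/-- from sums of length at most `q` to all lengths, for an arbitrary saving `σ` -/
theorem from_blocks (k : ℕ) (σ ε C : ℝ) (hε : 0 < ε) (hC : 0 < C) (q N : ℕ) (P : Polynomial ℝ)
    (hq : 1 ≤ q) (hqN : q ≤ N) (hP : P.natDegree ≤ k)
    (h : ∀ (X : ℕ) (P' : Polynomial ℝ), P'.natDegree ≤ k → P'.coeff k = P.coeff k → X ≤ q →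
      ‖∑ n ∈ Finset.Icc (1 : ℤ) (X : ℤ), ee (P'.eval (n : ℝ))‖ ≤ C * (q : ℝ) ^ (1 - σ + ε)) :
    ‖∑ n ∈ Finset.Icc (1 : ℤ) (N : ℤ), ee (P.eval (n : ℝ))‖ ≤
      2 * C * (N : ℝ) ^ (1 + ε) * (1 / (q : ℝ)) ^ σ := by
  have hq0 : (0 : ℝ) < (q : ℝ) := by exact_mod_cast hq
  have hN0 : (0 : ℝ) < (N : ℝ) := by exact_mod_cast (by omega : 0 < N)
  have hqN' : (q : ℝ) ≤ (N : ℝ) := by exact_mod_cast hqN
  have h1 := blocks k (C * (q : ℝ) ^ (1 - σ + ε)) q (P.coeff k) h P hP rfl (N / q) (N % q)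
    (Nat.mod_lt N (by omega)).le
  rw [Nat.div_add_mod' N q] at h1
  rw [sum_Icc_int]
  refine h1.trans ?_
  have h2 : (((N / q : ℕ) : ℝ) + 1) ≤ 2 * ((N : ℝ) / (q : ℝ)) := by
    have h3 : ((N / q : ℕ) : ℝ) ≤ (N : ℝ) / (q : ℝ) := Nat.cast_div_le
    have h4 : (1 : ℝ) ≤ (N : ℝ) / (q : ℝ) := by
      rw [le_div_iff₀ hq0]; linarith
    linarith
  have e1 : (q : ℝ) ^ (1 - σ + ε) = (q : ℝ) * (q : ℝ) ^ ε * (1 / (q : ℝ)) ^ σ := by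
    rw [one_div, Real.inv_rpow hq0.le, ← Real.rpow_neg hq0.le]
    nth_rewrite 2 [← Real.rpow_one (q : ℝ)]
    rw [← Real.rpow_add hq0, ← Real.rpow_add hq0]
    congr 1
    ring
  have h5 : (q : ℝ) ^ ε ≤ (N : ℝ) ^ ε := Real.rpow_le_rpow hq0.le hqN' hε.le
  have h6 : (0 : ℝ) ≤ (1 / (q : ℝ)) ^ σ := by positivity
  calc (((N / q : ℕ) : ℝ) + 1) * (C * (q : ℝ) ^ (1 - σ + ε))
      ≤ 2 * ((N : ℝ) / (q : ℝ)) * (C * (q : ℝ) ^ (1 - σ + ε)) :=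
        mul_le_mul_of_nonneg_right h2 (by positivity)
    _ = 2 * C * (N : ℝ) * ((q : ℝ) ^ ε * (1 / (q : ℝ)) ^ σ) := by
        rw [e1]
        field_simp
    _ ≤ 2 * C * (N : ℝ) * ((N : ℝ) ^ ε * (1 / (q : ℝ)) ^ σ) := by
        refine mul_le_mul_of_nonneg_left ?_ (by positivity)
        exact mul_le_mul_of_nonneg_right h5 h6
    _ = 2 * C * (N : ℝ) ^ (1 + ε) * (1 / (q : ℝ)) ^ σ := by
        rw [Real.rpow_add hN0, Real.rpow_one]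
        ring

/-- FNG: the final theorem, general exponent -/
theorem fng (k : ℕ) (θ : ℝ) (_hk : 3 ≤ k) (_h0 : 0 ≤ θ) (_h1 : θ ≤ 1) (blg : BlgStmt k θ) :
    FngStmt k θ := by
  intro ε hε
  obtain ⟨C, hC, h⟩ := blg ε hε
  refine ⟨2 * C, by positivity, ?_⟩
  intro N q a P hq hqN hg hP ht
  exact from_blocks k _ ε C hε hC q N P hq hqN hP
    (fun X P' hP' hPt hX => h q X a P' hq hg hP' (by rw [hPt]; exact ht) hX)

end Pool.Agent.VM.H17
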