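import Mathlib
import Pool.Agent.VM.StmtsW

set_option autoImplicit false

namespace Pool.Agent.VM.H17

open Pool.Agent.Helper69_Weyl (ee)

/-- JEQ: congruences with large moduli are equations -/
theorem jeq : JeqStmt := by
  intro s k N M hM
  have h1 : ∀ (x : Fin s → ℤ), x ∈ Fintype.piFinset (fun _ => Finset.Icc (1 : ℤ) (N : ℤ)) →
      ∀ j : ℕ, 0 ≤ ∑ i, x i ^ j ∧ ∑ i, x i ^ j ≤ (s : ℤ) * (N : ℤ) ^ j := by
    intro x hx j
    rw [Fintype.mem_piFinset] at hx
    constructor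
    · refine Finset.sum_nonneg fun i _ => ?_
      have := (Finset.mem_Icc.1 (hx i)).1
      positivity
    · calc ∑ i, x i ^ j ≤ ∑ _i : Fin s, (N : ℤ) ^ j := by
            refine Finset.sum_le_sum fun i _ => ?_
            have h := Finset.mem_Icc.1 (hx i)
            exact pow_le_pow_left₀ (by linarith [h.1]) h.2 j
        _ = (s : ℤ) * (N : ℤ) ^ j := by simp
  unfold Jmod Jset
  congr 1
  apply Finset.filter_congr
  intro v hv
  rw [Finset.mem_product] at hv
  refine forall_congr' fun j => ?_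
  have ha := h1 v.1 hv.1 ((j : ℕ) + 1)
  have hb := h1 v.2 hv.2 ((j : ℕ) + 1)
  have hMj : (s : ℤ) * (N : ℤ) ^ ((j : ℕ) + 1) < (M j : ℤ) := by
    have h2 := hM j
    have h3 : ((2 * s * N ^ ((j : ℕ) + 1) : ℕ) : ℤ) < (M j : ℤ) := by exact_mod_cast h2
    push_cast at h3
    have h4 : 0 ≤ (s : ℤ) * (N : ℤ) ^ ((j : ℕ) + 1) := by positivity
    nlinarith
  constructor
  · intro hd
    have hlt : |∑ i, v.1 i ^ ((j : ℕ) + 1) - ∑ i, v.2 i ^ ((j : ℕ) + 1)| < (M j : ℤ) := by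
      rw [abs_lt]
      constructor <;> linarith [ha.1, ha.2, hb.1, hb.2]
    exact sub_eq_zero.1 (Int.eq_zero_of_abs_lt_dvd hd hlt)
  · intro h
    rw [h, sub_self]
    exact dvd_zero _

end Pool.Agent.VM.H17
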